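import Pool.Agent.helper12.PFS.Spec2

/-!
# Row CYB: cyclic groups of odd order (MP_16a903_co)
-/

set_option autoImplicit false

namespace Pool.Agent.PFS

theorem CYB_rho {G : Type} [Group G] (hc : ∀ x y : G, x * y = y * x) (h x : G) :
    rho (fun x : G => x⁻¹) (Equiv.mulRight h) x = x * (h⁻¹) ^ 2 := by
  unfold rho
  simp only [Equiv.coe_mulRight, Equiv.mulRight_symm_apply]
  have e : ((x * h⁻¹)⁻¹ * h)⁻¹ = h⁻¹ * x * h⁻¹ := by group
  rw [e, pow_two, hc h⁻¹ x, mul_assoc]

theorem CYB_iter {G : Type} [Group G] (hc : ∀ x y : G, x * y = y * x) (h : G) (k : ℕ) : ∀ x : G,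
    (rho (fun x : G => x⁻¹) (Equiv.mulRight h))^[k] x = x * ((h⁻¹) ^ 2) ^ k := by
  induction k with
  | zero => intro x; simp
  | succ k ih =>
    intro x
    rw [Function.iterate_succ_apply, CYB_rho hc, ih, mul_assoc, ← pow_succ']

theorem CYB_gd {G : Type} [Group G] [Finite G] (hc : ∀ x y : G, x * y = y * x)
    (hodd : Odd (Nat.card G)) (h : G) (hh : orderOf h = Nat.card G) :
    Gd (fun x : G => x⁻¹) (Equiv.mulRight h) := by
  intro x y
  have h1 : orderOf ((h⁻¹) ^ 2) = Nat.card G := by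
    rw [Nat.Coprime.orderOf_pow, orderOf_inv, hh]
    rw [orderOf_inv, hh]
    exact hodd.coprime_two_right
  have h2 : Subgroup.zpowers ((h⁻¹) ^ 2) = ⊤ := by
    rw [← Subgroup.card_eq_iff_eq_top, Nat.card_zpowers, h1]
  have h3 : x⁻¹ * y ∈ Submonoid.powers ((h⁻¹) ^ 2) := by
    rw [mem_powers_iff_mem_zpowers, h2]
    exact Subgroup.mem_top _
  obtain ⟨k, hk⟩ := h3
  refine ⟨k, ?_⟩
  rw [CYB_iter hc]
  simp only at hk
  rw [hk]
  group

/-- Cyclic groups of odd order. -/
theorem CYB : CYB_stmt := by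
  classical
  intro G _ _ hG hodd
  have hc : ∀ x y : G, x * y = y * x := fun x y => (IsCyclic.commGroup (α := G)).mul_comm x y
  have := Fintype.ofFinite G
  have hord : ∀ x : G, x ^ 2 = 1 → x = 1 := by
    intro x hx
    have h1 : orderOf x ∣ 2 := orderOf_dvd_of_pow_eq_one hx
    have h2 : orderOf x ∣ Nat.card G := orderOf_dvd_natCard x
    have h3 : orderOf x ∣ Nat.gcd 2 (Nat.card G) := Nat.dvd_gcd h1 h2
    have h4 : Nat.gcd 2 (Nat.card G) = 1 := hodd.coprime_two_left
    rw [h4, Nat.dvd_one, orderOf_eq_one_iff] at h3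
    exact h3
  refine ⟨fun x => x⁻¹, ⟨⟨fun x => inv_inv x, fun x => ?_⟩, fun h hh => ?_⟩, ?_⟩
  · constructor
    · intro h
      apply hord
      have h' : x⁻¹ = x := h
      rw [pow_two]
      nth_rewrite 1 [← h']
      exact inv_mul_cancel x
    · rintro rfl
      exact inv_one
  · obtain ⟨k, hk⟩ := hodd
    have h1 : h ^ (k + 1) * ((h ^ (k + 1))⁻¹)⁻¹ = h := by
      rw [inv_inv, ← pow_add]
      have e : k + 1 + (k + 1) = Nat.card G + 1 := by omega
      rw [e, pow_succ, pow_card_eq_one', one_mul]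
    refine ⟨h ^ (k + 1), fun h2 => hh ?_, h1⟩
    rw [← h1, h2]
    simp
  · unfold ng
    have h1 : Nat.totient (Nat.card G) = Nat.card {h : G // orderOf h = Nat.card G} := by
      rw [Nat.card_eq_fintype_card (α := {h : G // orderOf h = Nat.card G}), Fintype.card_subtype,
        Nat.card_eq_fintype_card, IsCyclic.card_orderOf_eq_totient dvd_rfl]
    rw [h1]
    refine Nat.card_le_card_of_injective
      (fun h : {h : G // orderOf h = Nat.card G} =>
        (⟨h.1, CYB_gd hc hodd h.1 h.2⟩ : {h : G // Gd (fun x : G => x⁻¹) (Equiv.mulRight h)})) ?_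
    intro a b hab
    exact Subtype.ext (congrArg (fun t => t.1) hab)

end Pool.Agent.PFS
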